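import Pool.Agent.OPF.Main

/-!
# The minimum degree of the dicolouring graph
-/

set_option autoImplicit false

namespace Pool.Agent.Results.MP_144299_co.NeighbourBound

open Pool.Agent.OPF

/-- Let `D` be an oriented graph with `n` vertices, `m` arcs and `κ` connected components.  Every
`k`-dicolouring `c` of `D` has at least `k n - m - κ` neighbours in the `k`-dicolouring graph. -/
theorem result {V : Type} [Fintype V] {k : ℕ} (D : V → V → Prop) (hD : ∀ a b, D a b → ¬ D b a)
    (c : V → Fin k) (hc : IsDicolouring D c) :
    k * Fintype.card V ≤ (nbrs D c).ncard + (arcs D).ncard +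
      Nat.card (SimpleGraph.fromRel D).ConnectedComponent := by
  classical
  exact degree_bound hD hc

end Pool.Agent.Results.MP_144299_co.NeighbourBound
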