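import Pool.Agent.FV2.Main

/-!
# Mixing when one class of a 2-dicolouring is small in every strong component
-/

set_option autoImplicit false

namespace Pool.Agent.Results.MP_144299_co.SmallFeedback

open Pool.Agent.FV2

/-- Let `D` be a digraph on `n` vertices, `k ≥ 3`, and `F` a set of vertices such that `D[F]` and
`D - F` are acyclic and every strong component of `D` contains fewer than `k` vertices of `F`.  Then
any two `k`-dicolourings are joined by a walk of length at most `3 n - |F|` in the `k`-dicolouring
graph.  For an oriented graph `D` and `k = 3` the set `D[F]` is acyclic automatically: if `D - F` is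
acyclic and every strong component contains at most two vertices of `F`, then any two
`3`-dicolourings are joined by a walk of length at most `3 n - |F|`. -/
theorem result {V : Type} [Fintype V] (D : V → V → Prop) (F : Finset V)
    (hA : AcyclicOn D {v | v ∉ F}) :
    (∀ k : ℕ, 3 ≤ k → AcyclicOn D {v | v ∈ F} → (∀ v, {a | a ∈ F ∧ SC D v a}.ncard < k) →
      ∀ c c' : {c : V → Fin k // IsDicolouring D c},
        ∃ w : (DG D k).Walk c c', w.length ≤ 3 * Fintype.card V - F.card) ∧
    ((∀ a b, D a b → ¬ D b a) → (∀ v, {a | a ∈ F ∧ SC D v a}.ncard ≤ 2) →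
      ∀ c c' : {c : V → Fin 3 // IsDicolouring D c},
        ∃ w : (DG D 3).Walk c c', w.length ≤ 3 * Fintype.card V - F.card) := by
  classical
  refine ⟨fun k hk hF hC c c' => main D k hk F hA hF hC c c', fun hD hC c c' => ?_⟩
  have hC' : ∀ v, {a | a ∈ F ∧ SC D v a}.ncard < 3 := fun v => by have := hC v; omega
  exact main D 3 le_rfl F hA (acyclic_two D hD F hC') hC' c c'

end Pool.Agent.Results.MP_144299_co.SmallFeedback
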